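import Mathlib

/-!
# The clique bound for the ratio of chromatic polynomial values

For a finite graph `G` on `n` vertices with clique number `ω` and an integer `lam ≥ n`,
`P(G, lam - 1) / P(G, lam) ≤ (1 - ω / lam) (1 - 1 / lam) ^ (n - ω)`.
-/

namespace Pool.Agent.Results.MP_31cced_co.CliqueBound

open Finset

/-- `P G k` is the value at `k` of the chromatic polynomial of `G`: the number of proper
colourings of `G` with colours from a set of size `k`. -/
noncomputable def P {V : Type*} (G : SimpleGraph V) (k : ℕ) : ℕ := Nat.card (G.Coloring (Fin k))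

section Main

variable {V : Type*} [Fintype V] [DecidableEq V] (G : SimpleGraph V) (m : ℕ)

open Classical in
/-- The proper colourings with colours in `Fin (m + 1)` for which the colour `0` does not occur
on the set `A`. -/
noncomputable def Q (A : Finset V) : Finset (V → Fin (m + 1)) :=
  univ.filter (fun g => (∀ u v, G.Adj u v → g u ≠ g v) ∧ ∀ a ∈ A, g a ≠ 0)

theorem mem_Q {A : Finset V} {g : V → Fin (m + 1)} :
    g ∈ Q G m A ↔ (∀ u v, G.Adj u v → g u ≠ g v) ∧ ∀ a ∈ A, g a ≠ 0 := by
  simp [Q]

/-- number of vertices of `B` with colour `c` -/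
def t {m : ℕ} (B : Finset V) (g : V → Fin (m + 1)) (c : Fin (m + 1)) : ℕ :=
  (B.filter (fun x => g x = c)).card

/-- number of colours occurring on `B` -/
def k {m : ℕ} (B : Finset V) (g : V → Fin (m + 1)) : ℕ := (B.image g).card

omit [Fintype V] [DecidableEq V] in
theorem sum_t {m : ℕ} (B : Finset V) (g : V → Fin (m + 1)) :
    ∑ c ∈ B.image g, t B g c = B.card := (card_eq_sum_card_image g B).symm

/-- recolour the vertices of `B` with colour `c` by colour `0` -/
def mv {m : ℕ} (B : Finset V) (g : V → Fin (m + 1)) (c : Fin (m + 1)) : V → Fin (m + 1) :=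
  fun x => if x ∈ B ∧ g x = c then 0 else g x

theorem key (A : Finset V) (hb : (Aᶜ).card ≤ m + 1) :
    (Aᶜ).card * (Q G m A).card ≤
      (m + 1) * ∑ x ∈ Aᶜ, ((Q G m A).filter (fun g => g x = 0)).card := by
  classical
  set B : Finset V := Aᶜ with hB
  have hBA : ∀ x, x ∉ B → x ∈ A := by
    intro x hx
    by_contra h
    exact hx (mem_compl.2 h)
  set Q0 := (Q G m A).filter (fun g => (0 : Fin (m + 1)) ∉ B.image g) with hQ0
  set Q1 := (Q G m A).filter (fun g => ¬ (0 : Fin (m + 1)) ∉ B.image g) with hQ1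
  have hcard : (Q G m A).card = Q0.card + Q1.card := by
    rw [hQ0, hQ1]
    exact (card_filter_add_card_filter_not _).symm
  -- the weights
  let w : (V → Fin (m + 1)) → ℚ := fun g => (((m : ℚ) + 1) * t B g 0 - B.card) /
    ((m : ℚ) + 1 - k B g)
  have hkle : ∀ g : V → Fin (m + 1), k B g ≤ m + 1 := by
    intro g
    have := card_le_univ (B.image g)
    rw [Fintype.card_fin] at this
    exact this
  have hbq : (B.card : ℚ) ≤ (m : ℚ) + 1 := by exact_mod_cast hb
  have ht1 : ∀ g ∈ Q1, 1 ≤ t B g 0 := by
    intro g hg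
    rw [hQ1, mem_filter, not_not, mem_image] at hg
    obtain ⟨-, x, hx, hx0⟩ := hg
    exact card_pos.2 ⟨x, mem_filter.2 ⟨hx, hx0⟩⟩
  have hnum : ∀ g ∈ Q1, (0 : ℚ) ≤ ((m : ℚ) + 1) * t B g 0 - B.card := by
    intro g hg
    have h1 : (1 : ℚ) ≤ t B g 0 := by exact_mod_cast ht1 g hg
    have h2 : (0 : ℚ) ≤ (m : ℚ) + 1 := by positivity
    nlinarith
  have hw : ∀ g ∈ Q1, 0 ≤ w g := by
    intro g hg
    refine div_nonneg (hnum g hg) ?_
    have : (k B g : ℚ) ≤ (m : ℚ) + 1 := by exact_mod_cast hkle g
    linarith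
  -- step 3
  have step3 : ∑ g ∈ Q1, ∑ _c ∈ (B.image g)ᶜ, w g
      ≤ ∑ g ∈ Q1, (((m : ℚ) + 1) * t B g 0 - B.card) := by
    refine sum_le_sum fun g hg => ?_
    rw [sum_const, card_compl, Fintype.card_fin, nsmul_eq_mul]
    have hk : (B.image g).card ≤ m + 1 := hkle g
    have e : ((m + 1 - (B.image g).card : ℕ) : ℚ) = (m : ℚ) + 1 - k B g := by
      rw [Nat.cast_sub hk]
      push_cast
      rfl
    rw [e]
    by_cases h0 : (m : ℚ) + 1 - k B g = 0
    · rw [h0, zero_mul]
      exact hnum g hg
    · rw [mul_div_cancel₀ _ h0]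
  -- step 1
  have step1 : ∀ g ∈ Q0, ∑ c ∈ B.image g, (((m : ℚ) + 1) * t B g c - B.card) /
      ((m : ℚ) + 1 - k B g) = B.card := by
    intro g hg
    rw [hQ0, mem_filter] at hg
    have hk : k B g < m + 1 := by
      have h1 : B.image g ⊆ univ.erase 0 := by
        intro c hc
        rw [mem_erase]
        refine ⟨?_, mem_univ _⟩
        rintro rfl
        exact hg.2 hc
      have h2 := card_le_card h1
      rw [card_erase_of_mem (mem_univ _), card_univ, Fintype.card_fin] at h2
      change (B.image g).card < m + 1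
      omega
    have hk' : (m : ℚ) + 1 - k B g ≠ 0 := by
      have : (k B g : ℚ) < (m : ℚ) + 1 := by exact_mod_cast hk
      linarith
    rw [← sum_div, div_eq_iff hk', sum_sub_distrib, ← mul_sum, sum_const, nsmul_eq_mul]
    have h3 : ∑ c ∈ B.image g, (t B g c : ℚ) = B.card := by
      rw [← Nat.cast_sum, sum_t]
    rw [h3]
    change ((m : ℚ) + 1) * B.card - (k B g : ℚ) * B.card = _
    ring
  -- the map on pairs
  have step2 : ∑ g ∈ Q0, ∑ c ∈ B.image g, (((m : ℚ) + 1) * t B g c - B.card) /
      ((m : ℚ) + 1 - k B g) ≤ ∑ g ∈ Q1, ∑ _c ∈ (B.image g)ᶜ, w g := by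
    rw [sum_sigma', sum_sigma']
    let F : (Σ _ : V → Fin (m + 1), Fin (m + 1)) → (Σ _ : V → Fin (m + 1), Fin (m + 1)) :=
      fun p => ⟨mv B p.1 p.2, p.2⟩
    have hne : ∀ g ∈ Q0, ∀ x, g x ≠ 0 := by
      intro g hg x
      rw [hQ0, mem_filter, mem_Q] at hg
      by_cases hx : x ∈ B
      · intro h0
        exact hg.2 (mem_image.2 ⟨x, hx, h0⟩)
      · exact hg.1.2 x (hBA x hx)
    have hinj : Set.InjOn F (Q0.sigma fun g => B.image g : Finset _) := by
      rintro ⟨g, c⟩ hg ⟨g', c'⟩ hg' h
      rw [mem_coe, mem_sigma] at hg hg'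
      have hc : c = c' := congrArg Sigma.snd h
      subst hc
      have h1 : mv B g c = mv B g' c := congrArg Sigma.fst h
      have h2 : g = g' := by
        funext x
        have h3 := congrFun h1 x
        have hx := hne g hg.1 x
        have hx' := hne g' hg'.1 x
        simp only [mv] at h3
        split_ifs at h3 with ha hb' hb'
        · rw [ha.2, hb'.2]
        · exact (hx' h3.symm).elim
        · exact (hx h3).elim
        · exact h3
      rw [h2]
    have hmaps : ∀ p ∈ (Q0.sigma fun g => B.image g : Finset _),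
        F p ∈ (Q1.sigma fun g => (B.image g)ᶜ : Finset _) := by
      rintro ⟨g, c⟩ hg
      rw [mem_sigma] at hg
      obtain ⟨hg, hc⟩ := hg
      have hg0 := hne g hg
      rw [hQ0, mem_filter, mem_Q] at hg
      obtain ⟨⟨hprop, hA⟩, h0⟩ := hg
      simp only at hc
      obtain ⟨y, hyB, hy⟩ := mem_image.1 hc
      rw [mem_sigma]
      refine ⟨?_, ?_⟩
      · simp only [F]
        rw [hQ1, mem_filter, mem_Q, not_not]
        refine ⟨⟨?_, ?_⟩, ?_⟩
        · intro u v huv
          have := hprop u v huv
          have hu := hg0 u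
          have hv := hg0 v
          simp only [mv]
          split_ifs with h1 h2 h2
          · exact fun _ => this (h1.2.trans h2.2.symm)
          · exact fun h => hv h.symm
          · exact hu
          · exact this
        · intro a ha
          have haB : a ∉ B := by
            rw [hB, mem_compl, not_not]
            exact ha
          simp only [mv]
          rw [if_neg (fun h => haB h.1)]
          exact hA a ha
        · refine mem_image.2 ⟨y, hyB, ?_⟩
          simp only [mv]
          rw [if_pos ⟨hyB, hy⟩]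
      · simp only [F, mem_compl, mem_image, not_exists, not_and]
        intro x hx
        simp only [mv]
        split_ifs with h1
        · intro h
          exact hg0 y (hy.trans h.symm)
        · intro h
          exact h1 ⟨hx, h⟩
    have hval : ∀ p ∈ (Q0.sigma fun g => B.image g : Finset _),
        (((m : ℚ) + 1) * t B p.1 p.2 - B.card) / ((m : ℚ) + 1 - k B p.1) = w (F p).1 := by
      rintro ⟨g, c⟩ hg
      rw [mem_sigma] at hg
      obtain ⟨hg, hc⟩ := hg
      have hg0 := hne g hg
      simp only at hc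
      obtain ⟨y, hyB, hy⟩ := mem_image.1 hc
      have hfil : B.filter (fun x => mv B g c x = 0) = B.filter (fun x => g x = c) := by
        ext x
        rw [mem_filter, mem_filter]
        simp only [mv]
        constructor
        · rintro ⟨hx, h⟩
          refine ⟨hx, ?_⟩
          split_ifs at h with h1
          · exact h1.2
          · exact (hg0 x h).elim
        · rintro ⟨hx, h⟩
          refine ⟨hx, ?_⟩
          rw [if_pos ⟨hx, h⟩]
      have ht : t B (mv B g c) 0 = t B g c := by
        unfold t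
        rw [hfil]
      have hk : k B (mv B g c) = k B g := by
        unfold k
        have himg : B.image (mv B g c) = insert 0 ((B.image g).erase c) := by
          ext d
          simp only [mem_image, mem_insert, mem_erase, mv]
          constructor
          · rintro ⟨x, hx, rfl⟩
            split_ifs with h1
            · exact Or.inl rfl
            · exact Or.inr ⟨fun h => h1 ⟨hx, h⟩, x, hx, rfl⟩
          · rintro (rfl | ⟨hd, x, hx, rfl⟩)
            · exact ⟨y, hyB, by rw [if_pos ⟨hyB, hy⟩]⟩
            · exact ⟨x, hx, by rw [if_neg (fun h => hd h.2)]⟩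
        rw [himg, card_insert_of_notMem, card_erase_of_mem hc]
        · have : 0 < (B.image g).card := card_pos.2 ⟨c, hc⟩
          omega
        · intro h
          obtain ⟨x, _, hx⟩ := mem_image.1 (mem_of_mem_erase h)
          exact hg0 x hx
      simp only [w, F, ht, hk]
    rw [sum_congr rfl hval]
    calc ∑ p ∈ (Q0.sigma fun g => B.image g : Finset _), w (F p).1
        = ∑ q ∈ (Q0.sigma fun g => B.image g : Finset _).image F, w q.1 := by
          rw [sum_image hinj]
      _ ≤ ∑ q ∈ (Q1.sigma fun g => (B.image g)ᶜ : Finset _), w q.1 := by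
          refine sum_le_sum_of_subset_of_nonneg ?_ ?_
          · intro q hq
            obtain ⟨p, hp, rfl⟩ := mem_image.1 hq
            exact hmaps p hp
          · intro q hq _
            exact hw _ (mem_sigma.1 hq).1
  rw [sum_congr rfl step1, sum_const, nsmul_eq_mul] at step2
  have step4 := step2.trans step3
  rw [sum_sub_distrib, ← mul_sum, sum_const, nsmul_eq_mul] at step4
  -- double counting
  have step5 : ∑ x ∈ B, ((Q G m A).filter (fun g => g x = 0)).card = ∑ g ∈ Q G m A, t B g 0 := by
    simp only [t, card_filter]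
    rw [sum_comm]
  have step6 : ∑ g ∈ Q1, t B g 0 ≤ ∑ g ∈ Q G m A, t B g 0 :=
    sum_le_sum_of_subset (filter_subset _ _)
  rw [step5, hcard]
  have step7 : ((B.card : ℚ) * ((Q0.card : ℚ) + Q1.card)) ≤
      ((m : ℚ) + 1) * ∑ g ∈ Q G m A, (t B g 0 : ℚ) := by
    have h8 : (∑ g ∈ Q1, (t B g 0 : ℚ)) ≤ ∑ g ∈ Q G m A, (t B g 0 : ℚ) := by
      exact_mod_cast step6
    have h9 : ((m : ℚ) + 1) * ∑ g ∈ Q1, (t B g 0 : ℚ) ≤
        ((m : ℚ) + 1) * ∑ g ∈ Q G m A, (t B g 0 : ℚ) :=
      mul_le_mul_of_nonneg_left h8 (by positivity)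
    linarith
  exact_mod_cast step7

/-- Some vertex outside `A` can be added to `A`. -/
theorem exists_step (A : Finset V) (hA : A ≠ univ) (hb : (Aᶜ).card ≤ m + 1) :
    ∃ x, x ∉ A ∧ (m + 1) * (Q G m (insert x A)).card ≤ m * (Q G m A).card := by
  classical
  have hne : (Aᶜ).Nonempty := by
    rw [nonempty_iff_ne_empty, Ne, compl_eq_empty_iff]
    exact hA
  have h := key G m A hb
  have : ∃ x ∈ Aᶜ, (Q G m A).card ≤ (m + 1) * ((Q G m A).filter (fun g => g x = 0)).card := by
    by_contra hcon
    push Not at hcon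
    have h1 : ∑ x ∈ Aᶜ, (m + 1) * ((Q G m A).filter (fun g => g x = 0)).card
        < ∑ _x ∈ Aᶜ, (Q G m A).card := sum_lt_sum_of_nonempty hne hcon
    rw [← mul_sum, sum_const, smul_eq_mul] at h1
    omega
  obtain ⟨x, hx, hx2⟩ := this
  refine ⟨x, mem_compl.1 hx, ?_⟩
  have h2 : Q G m (insert x A) = (Q G m A).filter (fun g => ¬ g x = 0) := by
    ext g
    simp only [mem_filter, mem_Q, mem_insert, forall_eq_or_imp]
    tauto
  have h3 : ((Q G m A).filter (fun g => g x = 0)).card +
      ((Q G m A).filter (fun g => ¬ g x = 0)).card = (Q G m A).card :=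
    card_filter_add_card_filter_not _
  rw [h2]
  nlinarith

/-- Iterating from `A` up to the whole vertex set. -/
theorem iterate (A : Finset V) (hV : Fintype.card V ≤ m + 1) :
    (m + 1) ^ (Aᶜ).card * (Q G m univ).card ≤ m ^ (Aᶜ).card * (Q G m A).card := by
  classical
  induction hn : (Aᶜ).card generalizing A with
  | zero =>
    have : A = univ := by rwa [card_eq_zero, compl_eq_empty_iff] at hn
    rw [this]
    simp
  | succ n ih =>
    have hA : A ≠ univ := by
      rintro rfl
      simp at hn
    have hb : (Aᶜ).card ≤ m + 1 := (card_le_univ _).trans hV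
    obtain ⟨x, hx, hx2⟩ := exists_step G m A hA hb
    have hc : ((insert x A)ᶜ).card = n := by
      rw [card_compl, card_insert_of_notMem hx]
      rw [card_compl] at hn
      omega
    have h1 := ih (insert x A) hc
    calc (m + 1) ^ (n + 1) * (Q G m univ).card
        = (m + 1) * ((m + 1) ^ n * (Q G m univ).card) := by ring
      _ ≤ (m + 1) * (m ^ n * (Q G m (insert x A)).card) := Nat.mul_le_mul_left _ h1
      _ = m ^ n * ((m + 1) * (Q G m (insert x A)).card) := by ring
      _ ≤ m ^ n * (m * (Q G m A).card) := Nat.mul_le_mul_left _ hx2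
      _ = m ^ (n + 1) * (Q G m A).card := by ring

/-- On a clique `K`, the colour `0` is missed with probability `1 - |K| / (m + 1)`. -/
theorem clique_card (K : Finset V) (hK : G.IsClique K) :
    (m + 1) * (Q G m K).card + K.card * (Q G m ∅).card = (m + 1) * (Q G m ∅).card := by
  classical
  -- the number of colourings missing colour `c` on `K` does not depend on `c`
  have hsym : ∀ c : Fin (m + 1), ((Q G m ∅).filter (fun g => c ∉ K.image g)).card
      = (Q G m K).card := by
    intro c
    refine card_nbij' (fun g => (Equiv.swap 0 c) ∘ g) (fun g => (Equiv.swap 0 c) ∘ g)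
      ?_ ?_ ?_ ?_
    · intro g hg
      simp only [coe_filter, Set.mem_ofPred_eq, mem_Q] at hg
      rw [mem_coe, mem_Q]
      refine ⟨fun u v huv h => hg.1.1 u v huv ((Equiv.swap 0 c).injective h), ?_⟩
      intro a ha h
      have h1 : g a = c := by
        have : (Equiv.swap 0 c) (g a) = (Equiv.swap 0 c) c := by
          rw [Equiv.swap_apply_right]; exact h
        exact (Equiv.swap 0 c).injective this
      exact hg.2 (mem_image.2 ⟨a, ha, h1⟩)
    · intro g hg
      rw [mem_coe, mem_Q] at hg
      simp only [coe_filter, Set.mem_ofPred_eq, mem_Q]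
      refine ⟨⟨fun u v huv h => hg.1 u v huv ((Equiv.swap 0 c).injective h), by simp⟩, ?_⟩
      intro h
      obtain ⟨a, ha, h1⟩ := mem_image.1 h
      have h2 : g a = 0 := by
        have : (Equiv.swap 0 c) (g a) = (Equiv.swap 0 c) 0 := by
          rw [Equiv.swap_apply_left]; exact h1
        exact (Equiv.swap 0 c).injective this
      exact hg.2 a ha h2
    · intro g _
      funext x
      simp
    · intro g _
      funext x
      simp
  have hcount : ∑ c : Fin (m + 1), ((Q G m ∅).filter (fun g => c ∉ K.image g)).card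
      = ∑ g ∈ Q G m ∅, (m + 1 - K.card) := by
    simp only [card_filter]
    rw [sum_comm]
    refine sum_congr rfl fun g hg => ?_
    rw [← card_filter]
    have h1 : (univ.filter (fun c => c ∉ K.image g)) = (K.image g)ᶜ := by
      ext c; simp
    rw [h1, card_compl, Fintype.card_fin, card_image_of_injOn]
    intro a ha b hb hab
    by_contra hne
    rw [mem_Q] at hg
    exact hg.1 a b (hK ha hb hne) hab
  rw [sum_congr rfl (fun c _ => hsym c), sum_const, card_univ, Fintype.card_fin, smul_eq_mul,
    sum_const, smul_eq_mul] at hcount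
  by_cases hQ : (Q G m ∅).card = 0
  · rw [hQ] at hcount ⊢
    omega
  · obtain ⟨g, hg⟩ := card_pos.1 (Nat.pos_of_ne_zero hQ)
    have hKm : K.card ≤ m + 1 := by
      have h1 : (K.image g).card = K.card := by
        refine card_image_of_injOn ?_
        intro a ha b hb hab
        by_contra hne
        rw [mem_Q] at hg
        exact hg.1 a b (hK ha hb hne) hab
      have h2 := card_le_univ (K.image g)
      rw [Fintype.card_fin] at h2
      omega
    rw [hcount]
    have hs : m + 1 - K.card + K.card = m + 1 := Nat.sub_add_cancel hKm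
    calc (Q G m ∅).card * (m + 1 - K.card) + K.card * (Q G m ∅).card
        = (m + 1 - K.card + K.card) * (Q G m ∅).card := by ring
      _ = (m + 1) * (Q G m ∅).card := by rw [hs]

theorem card_Q_empty : (Q G m ∅).card = P G (m + 1) := by
  classical
  unfold P
  rw [← Nat.card_eq_finsetCard]
  refine Nat.card_congr ⟨fun g => SimpleGraph.Coloring.mk g.1 (fun {u v} h =>
    ((mem_Q G m).1 g.2).1 u v h), fun c => ⟨c, (mem_Q G m).2 ⟨fun u v h => c.valid h, by simp⟩⟩,
    ?_, ?_⟩
  · intro g; rfl
  · intro c; rfl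

theorem card_Q_univ : (Q G m univ).card = P G m := by
  classical
  unfold P
  rw [← Nat.card_eq_finsetCard]
  refine (Nat.card_congr ⟨fun c => ⟨fun v => (c v).succ, (mem_Q G m).2 ⟨fun u v h h' =>
    c.valid h (Fin.succ_injective _ h'), fun a _ => Fin.succ_ne_zero _⟩⟩,
    fun g => SimpleGraph.Coloring.mk (fun v => (g.1 v).pred (((mem_Q G m).1 g.2).2 v
      (mem_univ v))) (fun {u v} h h' => ((mem_Q G m).1 g.2).1 u v h (Fin.pred_inj.1 h')),
    ?_, ?_⟩).symm
  · intro c
    ext v
    rfl
  · intro g
    refine Subtype.ext (funext fun v => ?_)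
    exact Fin.succ_pred (g.1 v) (((mem_Q G m).1 g.2).2 v (mem_univ v))

end Main

/-- The clique bound. -/
theorem result {V : Type*} [Fintype V] [Nonempty V] (G : SimpleGraph V) (lam : ℕ)
    (hlam : Fintype.card V ≤ lam) :
    (P G (lam - 1) : ℝ) / (P G lam : ℝ) ≤
      (1 - (G.cliqueNum : ℝ) / (lam : ℝ)) *
        (1 - 1 / (lam : ℝ)) ^ (Fintype.card V - G.cliqueNum) := by
  classical
  have hpos : 0 < Fintype.card V := Fintype.card_pos
  obtain ⟨m, rfl⟩ : ∃ m, lam = m + 1 := ⟨lam - 1, by omega⟩
  obtain ⟨K, hK⟩ := G.exists_isNClique_cliqueNum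
  have h1 := iterate G m K hlam
  have h2 := clique_card G m K hK.isClique
  rw [card_Q_univ, card_compl, hK.card_eq] at h1
  rw [card_Q_empty, hK.card_eq] at h2
  rw [Nat.add_sub_cancel]
  set n := Fintype.card V - G.cliqueNum
  have h3 : ((m : ℝ) + 1) ^ n * (P G m : ℝ) ≤ (m : ℝ) ^ n * ((Q G m K).card : ℝ) := by
    exact_mod_cast h1
  have h4 : ((m : ℝ) + 1) * ((Q G m K).card : ℝ) + (G.cliqueNum : ℝ) * (P G (m + 1) : ℝ)
      = ((m : ℝ) + 1) * (P G (m + 1) : ℝ) := by
    exact_mod_cast h2
  have hm : (0 : ℝ) < (m : ℝ) + 1 := by positivity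
  have hP : (0 : ℝ) < (P G (m + 1) : ℝ) := by
    have : 0 < P G (m + 1) := by
      unfold P
      have : G.Colorable (m + 1) := (G.colorable_of_fintype).mono hlam
      obtain ⟨c⟩ := this
      have : Nonempty (G.Coloring (Fin (m + 1))) := ⟨c⟩
      exact Nat.card_pos
    exact_mod_cast this
  have e1 : ((Q G m K).card : ℝ) = (1 - (G.cliqueNum : ℝ) / ((m : ℝ) + 1)) * P G (m + 1) := by
    field_simp
    linarith
  have e2 : (1 - 1 / ((m : ℝ) + 1)) ^ n = (m : ℝ) ^ n / ((m : ℝ) + 1) ^ n := by
    rw [← div_pow]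
    congr 1
    field_simp
    ring
  push_cast
  rw [div_le_iff₀ hP, e2]
  have hmn : (0 : ℝ) < ((m : ℝ) + 1) ^ n := by positivity
  calc (P G m : ℝ) = (((m : ℝ) + 1) ^ n * (P G m : ℝ)) / ((m : ℝ) + 1) ^ n := by
        field_simp
    _ ≤ ((m : ℝ) ^ n * ((Q G m K).card : ℝ)) / ((m : ℝ) + 1) ^ n :=
        div_le_div_of_nonneg_right h3 hmn.le
    _ = _ := by
        rw [e1]
        ring

end Pool.Agent.Results.MP_31cced_co.CliqueBound
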